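import Mathlib

/-!
Braid groups, word length balls with respect to the Artin generators, and the exponential
growth rate.
-/

namespace Pool.Agent.H70.Braid

open Filter Topology

/-- Relators of the braid group on `n` strands, on generators indexed by `Fin (n - 1)`:
`σ_i σ_{i+1} σ_i = σ_{i+1} σ_i σ_{i+1}` and `σ_i σ_j = σ_j σ_i` whenever `|i - j| ≥ 2`. -/
def braidRels (n : ℕ) : Set (FreeGroup (Fin (n - 1))) :=
  {r | ∃ i j : Fin (n - 1), (i : ℕ) + 1 = j ∧
      r = (FreeGroup.of i * FreeGroup.of j * FreeGroup.of i) *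
          (FreeGroup.of j * FreeGroup.of i * FreeGroup.of j)⁻¹} ∪
  {r | ∃ i j : Fin (n - 1), (i : ℕ) + 2 ≤ j ∧
      r = (FreeGroup.of i * FreeGroup.of j) * (FreeGroup.of j * FreeGroup.of i)⁻¹}

/-- The braid group `B_n` on `n` strands. -/
abbrev BraidGroup (n : ℕ) : Type := PresentedGroup (braidRels n)

/-- The Artin generator `σ_i` of `B_n` (indices start at `0`). -/
def sigma (n : ℕ) (i : Fin (n - 1)) : BraidGroup n := PresentedGroup.of i

/-- The element of `B_n` spelled by a word; the letter `(i, true)` stands for `σ_i` and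
`(i, false)` for `σ_i⁻¹`. -/
def wordEval (n : ℕ) (w : List (Fin (n - 1) × Bool)) : BraidGroup n :=
  (w.map fun p => if p.2 then sigma n p.1 else (sigma n p.1)⁻¹).prod

/-- `β_n(k)`: the number of elements of `B_n` spelled by some word of length at most `k` in the
letters `σ_i^{±1}`. -/
noncomputable def ballCard (n k : ℕ) : ℕ :=
  Nat.card {g : BraidGroup n // ∃ w : List (Fin (n - 1) × Bool), w.length ≤ k ∧ wordEval n w = g}

/-- `ω` is the exponential growth rate of `B_n`: `β_n(k)^(1/k) → ω` as `k → ∞`. -/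
def IsGrowthRate (n : ℕ) (ω : ℝ) : Prop :=
  Tendsto (fun k : ℕ => (ballCard n k : ℝ) ^ (1 / (k : ℝ))) atTop (𝓝 ω)

/-! ### Basic facts -/

theorem sigma_braid (n : ℕ) (i j : Fin (n - 1)) (h : (i : ℕ) + 1 = j) :
    sigma n i * sigma n j * sigma n i = sigma n j * sigma n i * sigma n j := by
  have hr : (FreeGroup.of i * FreeGroup.of j * FreeGroup.of i) *
      (FreeGroup.of j * FreeGroup.of i * FreeGroup.of j)⁻¹ ∈ braidRels n :=
    Or.inl ⟨i, j, h, rfl⟩
  have h1 : (PresentedGroup.mk (braidRels n)) ((FreeGroup.of i * FreeGroup.of j * FreeGroup.of i) *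
      (FreeGroup.of j * FreeGroup.of i * FreeGroup.of j)⁻¹) = 1 :=
    PresentedGroup.one_of_mem hr
  simp only [map_mul, map_inv] at h1
  exact mul_inv_eq_one.mp h1

theorem sigma_comm (n : ℕ) (i j : Fin (n - 1)) (h : (i : ℕ) + 2 ≤ j) :
    sigma n i * sigma n j = sigma n j * sigma n i := by
  have hr : (FreeGroup.of i * FreeGroup.of j) * (FreeGroup.of j * FreeGroup.of i)⁻¹ ∈
      braidRels n := Or.inr ⟨i, j, h, rfl⟩
  have h1 : (PresentedGroup.mk (braidRels n)) ((FreeGroup.of i * FreeGroup.of j) *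
      (FreeGroup.of j * FreeGroup.of i)⁻¹) = 1 :=
    PresentedGroup.one_of_mem hr
  simp only [map_mul, map_inv] at h1
  exact mul_inv_eq_one.mp h1

/-- The ball of radius `k` as a set. -/
def ballSet (n k : ℕ) : Set (BraidGroup n) :=
  {g | ∃ w : List (Fin (n - 1) × Bool), w.length ≤ k ∧ wordEval n w = g}

theorem ballSet_eq_image (n k : ℕ) :
    ballSet n k = wordEval n '' {w : List (Fin (n - 1) × Bool) | w.length ≤ k} := by
  ext g
  simp [ballSet, Set.mem_image]

theorem ballSet_finite (n k : ℕ) : (ballSet n k).Finite := by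
  rw [ballSet_eq_image]
  exact (List.finite_length_le _ k).image _

theorem ballCard_eq (n k : ℕ) : ballCard n k = (ballSet n k).ncard := rfl

theorem wordEval_nil (n : ℕ) : wordEval n [] = 1 := by simp [wordEval]

theorem wordEval_append (n : ℕ) (u v : List (Fin (n - 1) × Bool)) :
    wordEval n (u ++ v) = wordEval n u * wordEval n v := by
  simp [wordEval]

theorem ballCard_pos (n k : ℕ) : 1 ≤ ballCard n k := by
  rw [ballCard_eq]
  have : (1 : BraidGroup n) ∈ ballSet n k := ⟨[], Nat.zero_le _, wordEval_nil n⟩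
  exact (Set.ncard_pos (ballSet_finite n k)).mpr ⟨1, this⟩

theorem ballCard_mono (n : ℕ) {k l : ℕ} (h : k ≤ l) : ballCard n k ≤ ballCard n l := by
  rw [ballCard_eq, ballCard_eq]
  exact Set.ncard_le_ncard (fun g ⟨w, hw, hg⟩ => ⟨w, hw.trans h, hg⟩) (ballSet_finite n l)

theorem ballCard_add (n a b : ℕ) : ballCard n (a + b) ≤ ballCard n a * ballCard n b := by
  rw [ballCard_eq, ballCard_eq, ballCard_eq, ← Set.ncard_prod]
  have hsub : ballSet n (a + b) ⊆ (fun p : BraidGroup n × BraidGroup n => p.1 * p.2) ''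
      (ballSet n a ×ˢ ballSet n b) := by
    rintro g ⟨w, hw, rfl⟩
    refine ⟨(wordEval n (w.take a), wordEval n (w.drop a)), ⟨⟨w.take a, ?_, rfl⟩,
      ⟨w.drop a, ?_, rfl⟩⟩, ?_⟩
    · simp
    · simp only [List.length_drop]; omega
    · simp only
      rw [← wordEval_append, List.take_append_drop]
  have hfin : (ballSet n a ×ˢ ballSet n b).Finite := (ballSet_finite n a).prod (ballSet_finite n b)
  exact (Set.ncard_le_ncard hsub (hfin.image _)).trans (Set.ncard_image_le hfin)

/-- Existence of the exponential growth rate (Fekete). -/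
theorem exists_growthRate (n : ℕ) : ∃ ω : ℝ, IsGrowthRate n ω := by
  set u : ℕ → ℝ := fun k => Real.log (ballCard n k) with hu
  have hpos : ∀ k, (0 : ℝ) < ballCard n k := fun k => by
    exact_mod_cast (ballCard_pos n k)
  have hsub : Subadditive u := by
    intro a b
    simp only [hu]
    rw [← Real.log_mul (hpos a).ne' (hpos b).ne']
    apply Real.log_le_log (hpos _)
    exact_mod_cast ballCard_add n a b
  have hbdd : BddBelow (Set.range fun k => u k / k) := by
    refine ⟨0, ?_⟩
    rintro _ ⟨k, rfl⟩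
    apply div_nonneg _ (Nat.cast_nonneg _)
    apply Real.log_nonneg
    exact_mod_cast ballCard_pos n k
  have ht := hsub.tendsto_lim hbdd
  refine ⟨Real.exp hsub.lim, ?_⟩
  have h2 := (Real.continuous_exp.tendsto hsub.lim).comp ht
  refine h2.congr (fun k => ?_)
  simp only [Function.comp, hu]
  rw [Real.rpow_def_of_pos (hpos k)]
  congr 1
  ring

end Pool.Agent.H70.Braid
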