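import Mathlib
import Pool.Agent.Lib.H70.BraidDefs

/-!
Lower bound for the growth of braid groups: the alternating words `σ_0, σ_1⁻¹, σ_2, σ_3⁻¹, ...`
act on integral vectors by `x_i ↦ x_i + x_{i-1} + x_{i+1}`.
-/

namespace Pool.Agent.H70.Braid.Lower

set_option linter.unusedSimpArgs false

open Filter Topology

/-- the elementary operation `x_{i+1} ↦ x_{i+1} + x_i + x_{i+2}` -/
def E (i : ℕ) : Equiv.Perm (ℕ → ℤ) where
  toFun x := Function.update x (i + 1) (x (i + 1) + x i + x (i + 2))
  invFun x := Function.update x (i + 1) (x (i + 1) - x i - x (i + 2))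
  left_inv x := by
    funext k
    by_cases h : k = i + 1
    · subst h
      simp only [Function.update_self]
      rw [Function.update_of_ne (by omega), Function.update_of_ne (by omega)]
      ring
    · simp [Function.update, h]
  right_inv x := by
    funext k
    by_cases h : k = i + 1
    · subst h
      simp only [Function.update_self]
      rw [Function.update_of_ne (by omega), Function.update_of_ne (by omega)]
      ring
    · simp [Function.update, h]

theorem E_apply (i : ℕ) (x : ℕ → ℤ) (k : ℕ) :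
    E i x k = if k = i + 1 then x (i + 1) + x i + x (i + 2) else x k := by
  simp [E, Function.update_apply]

theorem Einv_apply (i : ℕ) (x : ℕ → ℤ) (k : ℕ) :
    (E i)⁻¹ x k = if k = i + 1 then x (i + 1) - x i - x (i + 2) else x k := by
  change (E i).symm x k = _
  simp [E, Function.update_apply]

theorem E_self (i : ℕ) (x : ℕ → ℤ) : E i x (i + 1) = x (i + 1) + x i + x (i + 2) := by
  rw [E_apply, if_pos rfl]

theorem E_ne (i : ℕ) (x : ℕ → ℤ) {k : ℕ} (h : k ≠ i + 1) : E i x k = x k := by
  rw [E_apply, if_neg h]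

theorem Einv_self (i : ℕ) (x : ℕ → ℤ) : (E i)⁻¹ x (i + 1) = x (i + 1) - x i - x (i + 2) := by
  rw [Einv_apply, if_pos rfl]

theorem Einv_ne (i : ℕ) (x : ℕ → ℤ) {k : ℕ} (h : k ≠ i + 1) : (E i)⁻¹ x k = x k := by
  rw [Einv_apply, if_neg h]

theorem E_comm (i j : ℕ) (h : i + 2 ≤ j) : E i * E j = E j * E i := by
  ext x k
  simp only [Equiv.Perm.mul_apply]
  by_cases hk1 : k = i + 1
  · subst hk1
    rw [E_self, E_ne j _ (by omega), E_ne j _ (by omega), E_ne j _ (by omega),
      E_ne j _ (by omega), E_self]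
  · by_cases hk2 : k = j + 1
    · subst hk2
      rw [E_ne i _ (by omega), E_self, E_self, E_ne i _ (by omega), E_ne i _ (by omega),
        E_ne i _ (by omega)]
    · rw [E_ne i _ hk1, E_ne j _ hk2, E_ne j _ hk2, E_ne i _ hk1]

theorem E_a0 (i : ℕ) (x : ℕ → ℤ) : E i x i = x i := E_ne i x (by omega)
theorem E_a1 (i : ℕ) (x : ℕ → ℤ) : E i x (i + 1) = x (i + 1) + x i + x (i + 2) := E_self i x
theorem E_a2 (i : ℕ) (x : ℕ → ℤ) : E i x (i + 2) = x (i + 2) := E_ne i x (by omega)
theorem E_a3 (i : ℕ) (x : ℕ → ℤ) : E i x (i + 3) = x (i + 3) := E_ne i x (by omega)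
theorem E_b0 (i : ℕ) (x : ℕ → ℤ) : E (i + 1) x i = x i := E_ne _ x (by omega)
theorem E_b1 (i : ℕ) (x : ℕ → ℤ) : E (i + 1) x (i + 1) = x (i + 1) := E_ne _ x (by omega)
theorem E_b2 (i : ℕ) (x : ℕ → ℤ) : E (i + 1) x (i + 2) = x (i + 2) + x (i + 1) + x (i + 3) :=
  E_self (i + 1) x
theorem E_b3 (i : ℕ) (x : ℕ → ℤ) : E (i + 1) x (i + 3) = x (i + 3) := E_ne _ x (by omega)
theorem F_a0 (i : ℕ) (x : ℕ → ℤ) : (E i)⁻¹ x i = x i := Einv_ne i x (by omega)
theorem F_a1 (i : ℕ) (x : ℕ → ℤ) : (E i)⁻¹ x (i + 1) = x (i + 1) - x i - x (i + 2) :=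
  Einv_self i x
theorem F_a2 (i : ℕ) (x : ℕ → ℤ) : (E i)⁻¹ x (i + 2) = x (i + 2) := Einv_ne i x (by omega)
theorem F_a3 (i : ℕ) (x : ℕ → ℤ) : (E i)⁻¹ x (i + 3) = x (i + 3) := Einv_ne i x (by omega)
theorem F_b0 (i : ℕ) (x : ℕ → ℤ) : (E (i + 1))⁻¹ x i = x i := Einv_ne _ x (by omega)
theorem F_b1 (i : ℕ) (x : ℕ → ℤ) : (E (i + 1))⁻¹ x (i + 1) = x (i + 1) := Einv_ne _ x (by omega)
theorem F_b2 (i : ℕ) (x : ℕ → ℤ) :
    (E (i + 1))⁻¹ x (i + 2) = x (i + 2) - x (i + 1) - x (i + 3) := Einv_self (i + 1) x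
theorem F_b3 (i : ℕ) (x : ℕ → ℤ) : (E (i + 1))⁻¹ x (i + 3) = x (i + 3) := Einv_ne _ x (by omega)

theorem E_braid (i : ℕ) : E i * (E (i + 1))⁻¹ * E i = (E (i + 1))⁻¹ * E i * (E (i + 1))⁻¹ := by
  ext x k
  simp only [Equiv.Perm.mul_apply]
  by_cases hk1 : k = i + 1
  · subst hk1
    simp only [E_a0, E_a1, E_a2, E_a3, F_b0, F_b1, F_b2, F_b3]
    ring
  · by_cases hk2 : k = i + 2
    · subst hk2
      simp only [E_a0, E_a1, E_a2, E_a3, F_b0, F_b1, F_b2, F_b3]
      ring
    · rw [E_ne i _ hk1, Einv_ne (i + 1) _ hk2, E_ne i _ hk1, Einv_ne (i + 1) _ hk2,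
        E_ne i _ hk1, Einv_ne (i + 1) _ hk2]

theorem E_braid' (i : ℕ) : (E i)⁻¹ * E (i + 1) * (E i)⁻¹ = E (i + 1) * (E i)⁻¹ * E (i + 1) := by
  ext x k
  simp only [Equiv.Perm.mul_apply]
  by_cases hk1 : k = i + 1
  · subst hk1
    simp only [F_a0, F_a1, F_a2, F_a3, E_b0, E_b1, E_b2, E_b3]
    ring
  · by_cases hk2 : k = i + 2
    · subst hk2
      simp only [F_a0, F_a1, F_a2, F_a3, E_b0, E_b1, E_b2, E_b3]
      ring
    · rw [Einv_ne i _ hk1, E_ne (i + 1) _ hk2, Einv_ne i _ hk1, E_ne (i + 1) _ hk2,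
        Einv_ne i _ hk1, E_ne (i + 1) _ hk2]

/-- the image of the generators -/
noncomputable def gen (i : ℕ) : Equiv.Perm (ℕ → ℤ) := if i % 2 = 0 then E i else (E i)⁻¹

theorem gen_comm (i j : ℕ) (h : i + 2 ≤ j) : gen i * gen j = gen j * gen i := by
  have h0 : Commute (E i) (E j) := E_comm i j h
  unfold gen
  split_ifs
  · exact h0
  · exact h0.inv_right
  · exact h0.inv_left
  · exact h0.inv_inv

theorem gen_braid (i : ℕ) : gen i * gen (i + 1) * gen i = gen (i + 1) * gen i * gen (i + 1) := by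
  rcases Nat.mod_two_eq_zero_or_one i with h | h
  · have h2 : (i + 1) % 2 = 1 := by omega
    simp only [gen, h, h2, if_true, one_ne_zero, if_false]
    exact E_braid i
  · have h2 : (i + 1) % 2 = 0 := by omega
    simp only [gen, h, h2, if_true, one_ne_zero, if_false]
    exact E_braid' i

/-- the action of the braid group -/
noncomputable def rho (n : ℕ) : BraidGroup n →* Equiv.Perm (ℕ → ℤ) :=
  PresentedGroup.toGroup (f := fun i : Fin (n - 1) => gen i) (by
    rintro r (⟨i, j, hij, rfl⟩ | ⟨i, j, hij, rfl⟩)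
    · simp only [map_mul, map_inv, FreeGroup.lift_apply_of]
      rw [← hij, gen_braid, mul_inv_cancel]
    · simp only [map_mul, map_inv, FreeGroup.lift_apply_of]
      rw [gen_comm _ _ hij, mul_inv_cancel])

theorem rho_sigma (n : ℕ) (i : Fin (n - 1)) : rho n (sigma n i) = gen i := by
  simp [rho, sigma]

/-- the alternating letter -/
def alt {N : ℕ} (i : Fin N) : Fin N × Bool := (i, decide ((i : ℕ) % 2 = 0))

theorem rho_alt (n : ℕ) (w : List (Fin (n - 1))) :
    rho n (wordEval n (w.map alt)) = (w.map (fun i : Fin (n - 1) => E (i : ℕ))).prod := by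
  induction w with
  | nil => simp [wordEval]
  | cons i w ih =>
    have h1 : wordEval n ((i :: w).map alt) =
        wordEval n [alt i] * wordEval n (w.map alt) := by
      rw [← wordEval_append]; rfl
    rw [h1, map_mul, ih, List.map_cons, List.prod_cons]
    congr 1
    simp only [wordEval, List.map_cons, List.map_nil, List.prod_cons, List.prod_nil, mul_one, alt]
    by_cases h : (i : ℕ) % 2 = 0
    · simp [h, rho_sigma, gen]
    · simp [h, rho_sigma, gen]

/-- initial vector -/
def x0 (N : ℕ) (k : ℕ) : ℤ := if 1 ≤ k ∧ k ≤ N then 1 else 0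

/-- the vector of a word -/
noncomputable def vec (N : ℕ) (w : List (Fin N)) : ℕ → ℤ := (w.map (fun i : Fin N => E (i : ℕ))).prod (x0 N)

theorem vec_nil (N : ℕ) : vec N [] = x0 N := by simp [vec]

theorem vec_cons (N : ℕ) (i : Fin N) (w : List (Fin N)) : vec N (i :: w) = E i (vec N w) := by
  simp [vec]

/-- admissible words -/
def Good {N : ℕ} (w : List (Fin N)) : Prop :=
  List.IsChain (fun a b : Fin N => (a : ℕ) ≤ b + 1) w

theorem vec_nonneg (N : ℕ) (w : List (Fin N)) (k : ℕ) : 0 ≤ vec N w k := by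
  induction w generalizing k with
  | nil => rw [vec_nil]; unfold x0; split_ifs <;> norm_num
  | cons i w ih =>
    rw [vec_cons, E_apply]
    split_ifs
    · have := ih (i + 1); have := ih i; have := ih (i + 2); omega
    · exact ih k

theorem vec_pos (N : ℕ) (w : List (Fin N)) (k : ℕ) (h1 : 1 ≤ k) (h2 : k ≤ N) :
    0 < vec N w k := by
  induction w generalizing k with
  | nil => rw [vec_nil]; unfold x0; rw [if_pos ⟨h1, h2⟩]; norm_num
  | cons i w ih =>
    rw [vec_cons, E_apply]
    split_ifs with h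
    · have h3 := ih k h1 h2
      rw [h] at h3
      have := vec_nonneg N w i; have := vec_nonneg N w (i + 2); omega
    · exact ih k h1 h2

/-- the top entry -/
theorem vec_top (N : ℕ) (i : Fin N) (w : List (Fin N)) :
    vec N (i :: w) i + vec N (i :: w) (i + 2) < vec N (i :: w) (i + 1) := by
  rw [vec_cons, E_a0, E_a1, E_a2]
  have := vec_pos N w (i + 1) (by omega) (by omega)
  omega

theorem vec_mono (N : ℕ) (i : Fin N) (w : List (Fin N)) (hw : Good (i :: w)) (k : ℕ)
    (h1 : 1 ≤ k) (h2 : k ≤ i) : vec N (i :: w) k ≤ vec N (i :: w) (k + 1) := by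
  induction w generalizing i k with
  | nil =>
    have hi := i.2
    rw [vec_cons, vec_nil, E_ne _ _ (by omega)]
    by_cases hk : k = i
    · subst hk
      rw [E_a1]
      have h3 : x0 N ((i : ℕ) + 1) = 1 := by unfold x0; rw [if_pos (by omega)]
      have h4 : 0 ≤ x0 N ((i : ℕ) + 2) := by unfold x0; split_ifs <;> norm_num
      omega
    · rw [E_ne _ _ (by omega)]
      unfold x0
      rw [if_pos (by omega), if_pos (by omega)]
  | cons j w ih =>
    have hij : (i : ℕ) ≤ j + 1 := by
      have := hw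
      unfold Good at this
      rw [List.isChain_cons_cons] at this
      exact this.1
    have hw' : Good (j :: w) := by
      have := hw
      unfold Good at this
      rw [List.isChain_cons_cons] at this
      exact this.2
    rw [vec_cons N i, E_ne _ _ (by omega)]
    by_cases hk : k = i
    · subst hk
      rw [E_a1]
      have := vec_nonneg N (j :: w) (i + 1)
      have := vec_nonneg N (j :: w) (i + 2)
      omega
    · rw [E_ne _ _ (by omega)]
      exact ih j hw' k h1 (by omega)

/-- at most one admissible word for each vector -/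
theorem vec_inj (N : ℕ) (hN : 2 ≤ N) (w v : List (Fin N)) (hw : Good w) (hv : Good v)
    (h : vec N w = vec N v) : w = v := by
  have key : ∀ (i j : Fin N) (w v : List (Fin N)), Good (j :: v) →
      vec N (i :: w) = vec N (j :: v) → ¬ (i < j) := by
    intro i j w v hv h hij
    have hij' : (i : ℕ) < j := hij
    have h1 := vec_top N i w
    rw [h] at h1
    have h2 := vec_mono N j v hv (i + 1) (by omega) (by omega)
    have h3 := vec_nonneg N (j :: v) i
    have h4 : (i : ℕ) + 1 + 1 = i + 2 := rfl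
    rw [h4] at h2
    omega
  have key2 : ∀ (i : Fin N) (w : List (Fin N)), vec N (i :: w) ≠ vec N [] := by
    intro i w h
    have h1 := vec_top N i w
    rw [h, vec_nil] at h1
    have hi := i.2
    unfold x0 at h1
    by_cases hi0 : 1 ≤ (i : ℕ)
    · rw [if_pos (by omega), if_pos (show 1 ≤ (i : ℕ) + 1 ∧ (i : ℕ) + 1 ≤ N by omega)] at h1
      split_ifs at h1 <;> omega
    · have h0 : (i : ℕ) = 0 := by omega
      rw [h0] at h1
      simp only [zero_add] at h1
      rw [if_neg (by omega), if_pos (by omega), if_pos (by omega)] at h1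
      omega
  induction w generalizing v with
  | nil =>
    cases v with
    | nil => rfl
    | cons j v => exact absurd h.symm (key2 j v)
  | cons i w ih =>
    cases v with
    | nil => exact absurd h (key2 i w)
    | cons j v =>
      have h1 : i = j := by
        rcases lt_trichotomy i j with h2 | h2 | h2
        · exact absurd h2 (key i j w v hv h)
        · exact h2
        · exact absurd h2 (key j i v w hw h.symm)
      subst h1
      rw [vec_cons, vec_cons] at h
      have h3 := (E i).injective h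
      rw [ih v hw.tail hv.tail h3]

end Pool.Agent.H70.Braid.Lower
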