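import Mathlib
import Pool.Agent.Lib.H70.BraidDefs
import Pool.Agent.Lib.H70.BraidLower

/-!
Growth of the alternating words: `ω_n ≥ 4 cos² (π / (n + 1))`.
-/

namespace Pool.Agent.H70.Braid.Lower

open Filter Topology

/-- admissible words of length `m + 1` starting with `a` -/
def GW (N : ℕ) : ℕ → Fin N → Finset (List (Fin N))
  | 0, a => {[a]}
  | m + 1, a => (Finset.univ.filter (fun b : Fin N => (a : ℕ) ≤ b + 1)).biUnion
      (fun b => (GW N m b).image (List.cons a))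

theorem GW_spec (N m : ℕ) (a : Fin N) (w : List (Fin N)) (hw : w ∈ GW N m a) :
    Good w ∧ w.length = m + 1 ∧ ∃ t, w = a :: t := by
  induction m generalizing a w with
  | zero =>
    simp only [GW, Finset.mem_singleton] at hw
    subst hw
    exact ⟨by simp [Good], by simp, [], rfl⟩
  | succ m ih =>
    simp only [GW, Finset.mem_biUnion, Finset.mem_filter, Finset.mem_univ, true_and,
      Finset.mem_image] at hw
    obtain ⟨b, hab, u, hu, rfl⟩ := hw
    obtain ⟨h1, h2, t, rfl⟩ := ih b u hu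
    refine ⟨?_, by simp [h2], _, rfl⟩
    unfold Good at h1 ⊢
    rw [List.isChain_cons_cons]
    exact ⟨hab, h1⟩

theorem GW_card (N m : ℕ) (a : Fin N) :
    (GW N (m + 1) a).card =
      ∑ b ∈ Finset.univ.filter (fun b : Fin N => (a : ℕ) ≤ b + 1), (GW N m b).card := by
  rw [GW, Finset.card_biUnion]
  · apply Finset.sum_congr rfl
    intro b _
    exact Finset.card_image_of_injective _ List.cons_injective
  · intro b _ c _ hbc
    rw [Function.onFun, Finset.disjoint_left]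
    intro w hw1 hw2
    rw [Finset.mem_image] at hw1 hw2
    obtain ⟨u, hu, rfl⟩ := hw1
    obtain ⟨v, hv, huv⟩ := hw2
    have h1 := (List.cons.inj huv).2
    obtain ⟨_, _, t, rfl⟩ := GW_spec N m b u hu
    obtain ⟨_, _, t', rfl⟩ := GW_spec N m c v hv
    exact hbc ((List.cons.inj h1).1).symm

theorem GW_le_ball (n m : ℕ) (hn : 3 ≤ n) (a : Fin (n - 1)) :
    (GW (n - 1) m a).card ≤ ballCard n (m + 1) := by
  have hinj : Set.InjOn (fun w : List (Fin (n - 1)) => wordEval n (w.map alt))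
      (GW (n - 1) m a : Set (List (Fin (n - 1)))) := by
    intro w hw v hv h
    simp only at h
    have h1 := congrArg (rho n) h
    rw [rho_alt, rho_alt] at h1
    have h2 : vec (n - 1) w = vec (n - 1) v := by
      unfold vec
      rw [h1]
    exact vec_inj (n - 1) (by omega) w v (GW_spec _ _ _ _ hw).1 (GW_spec _ _ _ _ hv).1 h2
  rw [ballCard_eq, ← Set.ncard_coe_finset, ← hinj.ncard_image]
  apply Set.ncard_le_ncard _ (ballSet_finite n (m + 1))
  rintro _ ⟨w, hw, rfl⟩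
  refine ⟨w.map alt, ?_, rfl⟩
  rw [List.length_map, (GW_spec _ _ _ _ hw).2.1]

/-- trigonometric eigenvector, tail sums -/
noncomputable def V (N : ℕ) (θ : ℝ) (a : ℕ) : ℝ :=
  ((2 * Real.cos θ)⁻¹) ^ a * Real.sin (((N : ℝ) - a) * θ)

theorem V_sub (N : ℕ) (θ : ℝ) (hr : 0 < Real.cos θ) (a : ℕ) :
    V N θ a - V N θ (a + 1) =
      ((2 * Real.cos θ)⁻¹) ^ (a + 1) * Real.sin (((N : ℝ) - a + 1) * θ) := by
  unfold V
  have h1 : Real.sin (((N : ℝ) - a + 1) * θ) =
      2 * Real.cos θ * Real.sin (((N : ℝ) - a) * θ) - Real.sin (((N : ℝ) - (a + 1 : ℕ)) * θ) := by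
    have e1 : ((N : ℝ) - a + 1) * θ = ((N : ℝ) - a) * θ + θ := by ring
    have e2 : ((N : ℝ) - (a + 1 : ℕ)) * θ = ((N : ℝ) - a) * θ - θ := by push_cast; ring
    rw [e1, e2, Real.sin_add, Real.sin_sub]
    ring
  rw [h1, pow_succ]
  have h2 : (2 * Real.cos θ) ≠ 0 := by positivity
  field_simp

theorem lam_mul (N : ℕ) (θ : ℝ) (hr : 0 < Real.cos θ) (a : ℕ) :
    (4 * Real.cos θ ^ 2) * (V N θ (a + 1) - V N θ (a + 1 + 1)) = V N θ a := by
  rw [V_sub N θ hr (a + 1)]
  unfold V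
  have e1 : ((N : ℝ) - (a + 1 : ℕ) + 1) * θ = ((N : ℝ) - a) * θ := by push_cast; ring
  rw [e1]
  have h2 : (2 * Real.cos θ) ≠ 0 := by positivity
  have h3 : ((2 * Real.cos θ)⁻¹) ^ (a + 1 + 1) * (4 * Real.cos θ ^ 2) =
      ((2 * Real.cos θ)⁻¹) ^ a := by
    rw [pow_succ, pow_succ]
    field_simp
    ring
  rw [← mul_assoc, mul_comm (4 * Real.cos θ ^ 2), h3]

theorem lam_mul_zero (N : ℕ) (θ : ℝ) (hr : 0 < Real.cos θ) (hθ : ((N : ℝ) + 2) * θ = Real.pi) :
    (4 * Real.cos θ ^ 2) * (V N θ 0 - V N θ (0 + 1)) = V N θ 0 := by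
  rw [V_sub N θ hr 0]
  unfold V
  simp only [zero_add, pow_one, pow_zero, Nat.cast_zero, sub_zero, one_mul]
  have h2 : (2 * Real.cos θ) ≠ 0 := by positivity
  have h3 : 2 * Real.cos θ * Real.sin (((N : ℝ) + 1) * θ) = Real.sin ((N : ℝ) * θ) := by
    have h4 : Real.sin (((N : ℝ) + 1) * θ + θ) = 0 := by
      have : ((N : ℝ) + 1) * θ + θ = Real.pi := by rw [← hθ]; ring
      rw [this, Real.sin_pi]
    have h5 : Real.sin ((N : ℝ) * θ) = Real.sin (((N : ℝ) + 1) * θ - θ) := by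
      congr 1; ring
    rw [Real.sin_add] at h4
    rw [h5, Real.sin_sub]
    linarith
  rw [← h3]
  field_simp
  ring

theorem V_last (N : ℕ) (θ : ℝ) : V N θ N = 0 := by
  unfold V
  simp

theorem sum_v (N : ℕ) (θ : ℝ) (hr : 0 < Real.cos θ) (hθ : ((N : ℝ) + 2) * θ = Real.pi)
    (a : Fin N) :
    ∑ b ∈ Finset.univ.filter (fun b : Fin N => (a : ℕ) ≤ b + 1),
      (V N θ b - V N θ (b + 1)) = (4 * Real.cos θ ^ 2) * (V N θ a - V N θ (a + 1)) := by
  have h1 : ∑ b ∈ Finset.univ.filter (fun b : Fin N => (a : ℕ) ≤ b + 1),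
      (V N θ b - V N θ (b + 1)) =
      ∑ b ∈ (Finset.range N).filter (fun b => (a : ℕ) ≤ b + 1), (V N θ b - V N θ (b + 1)) := by
    rw [Finset.sum_filter, Finset.sum_filter]
    rw [Finset.sum_range (fun b => if (a : ℕ) ≤ b + 1 then V N θ b - V N θ (b + 1) else 0)]
  rw [h1]
  have haN := a.2
  rcases hcase : (a : ℕ) with _ | a'
  · have h2 : (Finset.range N).filter (fun b => 0 ≤ b + 1) = Finset.range N := by
      apply Finset.filter_true_of_mem
      intro b _; omega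
    rw [h2, Finset.sum_range_sub', lam_mul_zero N θ hr hθ, V_last, sub_zero]
  · have h2 : (Finset.range N).filter (fun b => a' + 1 ≤ b + 1) = Finset.Ico a' N := by
      ext b
      simp only [Finset.mem_filter, Finset.mem_range, Finset.mem_Ico]
      omega
    rw [h2, lam_mul N θ hr a']
    have h3 : ∑ b ∈ Finset.Ico a' N, (V N θ b - V N θ (b + 1)) = V N θ a' - V N θ N := by
      rw [Finset.sum_Ico_eq_sum_range]
      have h4 := Finset.sum_range_sub' (fun k => V N θ (a' + k)) (N - a')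
      have h5 : a' + (N - a') = N := by omega
      simp only [h5, add_zero] at h4
      rw [← h4]
      apply Finset.sum_congr rfl
      intro k _
      rfl
    rw [h3, V_last, sub_zero]

theorem v_pos (N : ℕ) (θ : ℝ) (hr : 0 < Real.cos θ) (hθ0 : 0 < θ)
    (hθ : ((N : ℝ) + 2) * θ = Real.pi) (a : ℕ) (ha : a < N) :
    0 < V N θ a - V N θ (a + 1) := by
  rw [V_sub N θ hr a]
  have haR : (a : ℝ) + 1 ≤ N := by exact_mod_cast ha
  have ha0 : (0 : ℝ) ≤ a := Nat.cast_nonneg a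
  apply mul_pos
  · positivity
  · apply Real.sin_pos_of_pos_of_lt_pi
    · apply mul_pos _ hθ0
      linarith
    · rw [← hθ]
      apply mul_lt_mul_of_pos_right _ hθ0
      linarith

theorem GW_card_ge (N : ℕ) (hN : 1 ≤ N) (θ : ℝ) (hr : 0 < Real.cos θ) (hθ0 : 0 < θ)
    (hθ : ((N : ℝ) + 2) * θ = Real.pi) :
    ∃ κ : ℝ, 0 < κ ∧ ∀ (m : ℕ) (a : Fin N),
      κ * (V N θ a - V N θ (a + 1)) * (4 * Real.cos θ ^ 2) ^ m ≤ ((GW N m a).card : ℝ) := by
  have hpos : ∀ b : Fin N, 0 < V N θ b - V N θ (b + 1) := fun b => v_pos N θ hr hθ0 hθ b b.2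
  set M : ℝ := ∑ b : Fin N, (V N θ b - V N θ (b + 1)) with hM
  have hMpos : 0 < M := Finset.sum_pos (fun b _ => hpos b) ⟨⟨0, hN⟩, Finset.mem_univ _⟩
  have hle : ∀ a : Fin N, V N θ a - V N θ (a + 1) ≤ M := fun a =>
    Finset.single_le_sum (f := fun b : Fin N => V N θ b - V N θ (b + 1))
      (fun b _ => (hpos b).le) (Finset.mem_univ a)
  refine ⟨M⁻¹, by positivity, ?_⟩
  intro m
  induction m with
  | zero =>
    intro a
    simp only [pow_zero, mul_one, GW, Finset.card_singleton, Nat.cast_one]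
    rw [inv_mul_le_iff₀ hMpos, mul_one]
    exact hle a
  | succ m ih =>
    intro a
    rw [GW_card, Nat.cast_sum]
    calc M⁻¹ * (V N θ a - V N θ (a + 1)) * (4 * Real.cos θ ^ 2) ^ (m + 1)
        = M⁻¹ * (4 * Real.cos θ ^ 2) ^ m *
          ((4 * Real.cos θ ^ 2) * (V N θ a - V N θ (a + 1))) := by ring
      _ = ∑ b ∈ Finset.univ.filter (fun b : Fin N => (a : ℕ) ≤ b + 1),
          M⁻¹ * (V N θ b - V N θ (b + 1)) * (4 * Real.cos θ ^ 2) ^ m := by
          rw [← sum_v N θ hr hθ a, Finset.mul_sum]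
          apply Finset.sum_congr rfl
          intro b _
          ring
      _ ≤ _ := Finset.sum_le_sum fun b _ => ih b

end Lower

open Filter Topology

theorem growth_ge_of_bound {n : ℕ} {ω lam c : ℝ} (hlam : 0 < lam) (hc : 0 < c)
    (hω : IsGrowthRate n ω) (hb : ∀ k, 1 ≤ k → c * lam ^ k ≤ (ballCard n k : ℝ)) : lam ≤ ω := by
  have h1 : Tendsto (fun k : ℕ => c ^ (1 / (k : ℝ)) * lam) atTop (𝓝 (c ^ (0 : ℝ) * lam)) := by
    apply Tendsto.mul_const
    exact tendsto_const_nhds.rpow tendsto_one_div_atTop_nhds_zero_nat (Or.inl hc.ne')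
  rw [Real.rpow_zero, one_mul] at h1
  refine le_of_tendsto_of_tendsto h1 hω ?_
  filter_upwards [eventually_ge_atTop 1] with k hk
  have hk0 : (k : ℝ) ≠ 0 := by
    have : (0 : ℝ) < k := by exact_mod_cast hk
    exact this.ne'
  calc c ^ (1 / (k : ℝ)) * lam = c ^ (1 / (k : ℝ)) * (lam ^ k) ^ (1 / (k : ℝ)) := by
        congr 1
        rw [← Real.rpow_natCast, ← Real.rpow_mul hlam.le, mul_one_div_cancel hk0, Real.rpow_one]
    _ = (c * lam ^ k) ^ (1 / (k : ℝ)) := by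
        rw [Real.mul_rpow hc.le (by positivity)]
    _ ≤ (ballCard n k : ℝ) ^ (1 / (k : ℝ)) := by
        apply Real.rpow_le_rpow (by positivity) (hb k hk)
        positivity

theorem growth_ge {n : ℕ} (hn : 3 ≤ n) {ω : ℝ} (hω : IsGrowthRate n ω) :
    4 * Real.cos (Real.pi / (n + 1)) ^ 2 ≤ ω := by
  set θ : ℝ := Real.pi / (n + 1) with hθdef
  have hnR : (3 : ℝ) ≤ n := by exact_mod_cast hn
  have hθ0 : 0 < θ := by positivity
  have hθ2 : θ < Real.pi / 2 := by
    rw [hθdef]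
    apply div_lt_div_of_pos_left Real.pi_pos (by norm_num)
    linarith
  have hr : 0 < Real.cos θ := Real.cos_pos_of_mem_Ioo ⟨by linarith, hθ2⟩
  have hcast : ((n - 1 : ℕ) : ℝ) = (n : ℝ) - 1 := by
    rw [Nat.cast_sub (by omega)]; norm_num
  have hθ : (((n - 1 : ℕ) : ℝ) + 2) * θ = Real.pi := by
    rw [hcast, hθdef]
    field_simp
    ring
  obtain ⟨κ, hκ, hbd⟩ := Lower.GW_card_ge (n - 1) (by omega) θ hr hθ0 hθ
  have h0 : 0 < n - 1 := by omega
  have hv := Lower.v_pos (n - 1) θ hr hθ0 hθ 0 h0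
  set lam : ℝ := 4 * Real.cos θ ^ 2 with hlam
  have hlampos : 0 < lam := by positivity
  refine growth_ge_of_bound (c := κ * (Lower.V (n - 1) θ 0 - Lower.V (n - 1) θ (0 + 1)) / lam)
    hlampos (by positivity) hω ?_
  intro k hk
  obtain ⟨m, rfl⟩ : ∃ m, k = m + 1 := ⟨k - 1, by omega⟩
  have h1 := hbd m ⟨0, h0⟩
  have h2 : ((Lower.GW (n - 1) m ⟨0, h0⟩).card : ℝ) ≤ ballCard n (m + 1) := by
    exact_mod_cast Lower.GW_le_ball n m hn ⟨0, h0⟩
  refine le_trans (le_of_eq ?_) (h1.trans h2)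
  rw [pow_succ]
  field_simp

end Pool.Agent.H70.Braid
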