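import Mathlib
import Pool.Agent.Lib.H70.BraidDefs

/-!
Upper bound for the growth of braid groups: geodesic words which are lexicographically least
(with respect to the indices) avoid a context-dependent set of patterns.
-/

namespace Pool.Agent.H70.Braid.Upper

variable {N : ℕ} {G : Type*} [Group G]

/-- letters -/
abbrev Letter (N : ℕ) := Fin N × Bool

/-- the word of indices -/
def idx (w : List (Letter N)) : List ℕ := w.map (fun p => (p.1 : ℕ))

/-- value of a letter -/
def val (s : Fin N → G) (p : Letter N) : G := if p.2 then s p.1 else (s p.1)⁻¹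

/-- value of a word -/
def ev (s : Fin N → G) (w : List (Letter N)) : G := (w.map (val s)).prod

/-- geodesic and lexicographically least in indices -/
structure NF (s : Fin N → G) (w : List (Letter N)) : Prop where
  geo : ∀ w', ev s w' = ev s w → w.length ≤ w'.length
  lex : ∀ w', ev s w' = ev s w → w'.length = w.length → ¬ (idx w' < idx w)

variable {s : Fin N → G}

@[simp] theorem ev_nil : ev s [] = 1 := by simp [ev]

@[simp] theorem ev_append (u v : List (Letter N)) : ev s (u ++ v) = ev s u * ev s v := by
  simp [ev]

@[simp] theorem ev_cons (p : Letter N) (v : List (Letter N)) :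
    ev s (p :: v) = val s p * ev s v := by
  simp [ev]

theorem ev_replicate (k : ℕ) (p : Letter N) : ev s (List.replicate k p) = val s p ^ k := by
  simp [ev]

theorem val_not (a : Fin N) (e : Bool) : val s (a, !e) = (val s (a, e))⁻¹ := by
  cases e <;> simp [val]

theorem exists_NF (w0 : List (Letter N)) :
    ∃ w, NF s w ∧ ev s w = ev s w0 ∧ w.length ≤ w0.length := by
  classical
  have hP : ∃ l, ∃ w : List (Letter N), ev s w = ev s w0 ∧ w.length = l := ⟨_, w0, rfl, rfl⟩
  obtain ⟨w1, hw1, hl1⟩ := Nat.find_spec hP
  set l := Nat.find hP with hl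
  have hmin : ∀ w : List (Letter N), ev s w = ev s w0 → l ≤ w.length := fun w hw =>
    Nat.find_min' hP ⟨w, hw, rfl⟩
  let T : Set (List (Letter N)) := {w | w.length = l ∧ ev s w = ev s w0}
  have hT : T.Finite := (List.finite_length_eq (Letter N) l).subset (fun w hw => hw.1)
  obtain ⟨w, hw, hwm⟩ := Set.exists_min_image T idx hT ⟨w1, hl1, hw1⟩
  refine ⟨w, ⟨?_, ?_⟩, hw.2, ?_⟩
  · intro w' hw'
    rw [hw.1]
    exact hmin w' (hw'.trans hw.2)
  · intro w' hw' hlen
    exact not_lt.mpr (hwm w' ⟨hlen.trans hw.1, hw'.trans hw.2⟩)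
  · rw [hw.1]; exact hmin w0 rfl

theorem append_lt {z u v : List ℕ} {i j : ℕ} (h : i < j) : z ++ i :: u < z ++ j :: v := by
  induction z with
  | nil =>
    simp only [List.nil_append]
    rw [List.cons_lt_cons_iff]
    exact Or.inl h
  | cons a z ih =>
    simp only [List.cons_append]
    rw [List.cons_lt_cons_iff]
    exact Or.inr ⟨rfl, ih⟩

theorem append_right_lt {u v t : List ℕ} (h : u < v) (hl : u.length = v.length) :
    u ++ t < v ++ t := by
  induction u generalizing v with
  | nil =>
    cases v with
    | nil => exact absurd h (lt_irrefl _)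
    | cons b v => simp at hl
  | cons a u ih =>
    cases v with
    | nil => simp at hl
    | cons b v =>
      simp only [List.cons_append]
      rw [List.cons_lt_cons_iff] at h ⊢
      rcases h with h | ⟨h1, h2⟩
      · exact Or.inl h
      · exact Or.inr ⟨h1, ih h2 (by simpa using hl)⟩

theorem NF.of_append {u v : List (Letter N)} (h : NF s (u ++ v)) : NF s u := by
  constructor
  · intro w' hw'
    have := h.geo (w' ++ v) (by simp [hw'])
    simp only [List.length_append] at this
    omega
  · intro w' hw' hl hlt
    apply h.lex (w' ++ v) (by simp [hw']) (by simp [hl])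
    simp only [idx, List.map_append]
    exact append_right_lt hlt (by simp [hl])

/-- a better word of the same length -/
theorem not_NF_of {u : List (Letter N)} {p q : Letter N} {v v' : List (Letter N)}
    (hpq : (p.1 : ℕ) < q.1) (hlen : v.length = v'.length)
    (hev : val s p * ev s v = val s q * ev s v') : ¬ NF s (u ++ q :: v') := by
  intro h
  apply h.lex (u ++ p :: v)
  · simp [hev]
  · simp [hlen]
  · simp only [idx, List.map_append, List.map_cons]
    exact append_lt hpq

section relations

variable (hc : ∀ i j : Fin N, (i : ℕ) + 2 ≤ j → s i * s j = s j * s i)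
variable (hb : ∀ i j : Fin N, (i : ℕ) + 1 = j → s i * s j * s i = s j * s i * s j)

include hc in
theorem comm_val {p : Letter N} {a : Fin N} (e : Bool) (h : (p.1 : ℕ) + 2 ≤ a) :
    Commute (val s p) (val s (a, e)) := by
  have h0 : Commute (s p.1) (s a) := hc p.1 a h
  rcases p with ⟨i, d⟩
  cases d <;> cases e <;> simp only [val] <;> simp
  · exact h0
  · exact h0
  · exact h0
  · exact h0

include hc in
theorem comm_ev {y : List (Letter N)} {a : Fin N} (e : Bool) (hy : ∀ p ∈ y, (p.1 : ℕ) + 2 ≤ a) :
    Commute (ev s y) (val s (a, e)) := by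
  induction y with
  | nil => simp
  | cons p y ih =>
    rw [ev_cons]
    exact (comm_val hc e (hy p (by simp))).mul_left (ih fun q hq => hy q (by simp [hq]))

include hb in
theorem conj_one {a b : Fin N} (hab : (b : ℕ) + 1 = a) (e : Bool) :
    val s (a, e) * s b * (val s (a, e))⁻¹ = (val s (b, e))⁻¹ * s a * val s (b, e) := by
  have h := hb b a hab
  cases e
  · simp only [val, Bool.false_eq_true, if_false, inv_inv]
    have h1 : s b * s a * s b = s a * s b * s a := h
    calc (s a)⁻¹ * s b * s a = (s a)⁻¹ * (s b * s a * s b) * (s b)⁻¹ := by group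
      _ = (s a)⁻¹ * (s a * s b * s a) * (s b)⁻¹ := by rw [h1]
      _ = s b * s a * (s b)⁻¹ := by group
  · simp only [val, if_true]
    calc s a * s b * (s a)⁻¹ = (s b)⁻¹ * (s b * s a * s b) * (s a)⁻¹ := by group
      _ = (s b)⁻¹ * (s a * s b * s a) * (s a)⁻¹ := by rw [h]
      _ = (s b)⁻¹ * s a * s b := by group

include hb in
theorem conj_powv {a b : Fin N} (hab : (b : ℕ) + 1 = a) (e d : Bool) (k : ℕ) :
    val s (a, e) * val s (b, d) ^ k * (val s (a, e))⁻¹ =
      (val s (b, e))⁻¹ * val s (a, d) ^ k * val s (b, e) := by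
  have h1 := conj_one hb hab e
  have h2 : val s (a, e) * val s (b, d) * (val s (a, e))⁻¹ =
      (val s (b, e))⁻¹ * val s (a, d) * val s (b, e) := by
    cases d
    · have h3 := congrArg (·⁻¹) h1
      simp only [mul_inv_rev, inv_inv] at h3
      simp only [val, Bool.false_eq_true, if_false] at *
      rw [mul_assoc, h3, mul_assoc]
    · simpa [val] using h1
  rw [← _root_.conj_pow, h2]
  have h4 : (val s (b, e))⁻¹ * val s (a, d) * val s (b, e) =
      (val s (b, e))⁻¹ * val s (a, d) * ((val s (b, e))⁻¹)⁻¹ := by rw [inv_inv]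
  rw [h4, _root_.conj_pow, inv_inv]

include hc hb in
theorem forb {z y : List (Letter N)} {a b : Fin N} {ε δ c : Bool} {k : ℕ}
    (hab : (b : ℕ) + 1 = a) (hy : ∀ p ∈ y, (p.1 : ℕ) + 2 ≤ a)
    (hbad : c ≠ ε ∨ (k = 0 ∧ δ = ε)) :
    ¬ NF s (z ++ (a, ε) :: (List.replicate (k + 1) (b, δ) ++ y ++ [(a, c)])) := by
  by_cases hce : c = ε
  · subst hce
    rcases hbad with h | ⟨hk, hd⟩
    · exact absurd rfl h
    · subst hk; subst hd
      apply not_NF_of (p := (b, δ)) (v := (a, δ) :: (b, δ) :: y)
      · simp only; omega
      · simp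
      · have hcm := comm_ev hc δ hy
        have h := hb b a hab
        simp only [ev_cons, ev_append, ev_replicate, ev_nil, mul_one, zero_add, pow_one]
        have h2 : val s (b, δ) * val s (a, δ) * val s (b, δ) =
            val s (a, δ) * val s (b, δ) * val s (a, δ) := by
          cases δ
          · simp only [val, Bool.false_eq_true, if_false]
            have := congrArg (·⁻¹) h
            simp only [mul_inv_rev] at this
            simpa [mul_assoc] using this
          · simpa [val] using h
        calc val s (b, δ) * (val s (a, δ) * (val s (b, δ) * ev s y))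
            = (val s (b, δ) * val s (a, δ) * val s (b, δ)) * ev s y := by group
          _ = val s (a, δ) * val s (b, δ) * (val s (a, δ) * ev s y) := by rw [h2]; group
          _ = val s (a, δ) * val s (b, δ) * (ev s y * val s (a, δ)) := by rw [hcm.eq]
          _ = val s (a, δ) * (val s (b, δ) * ev s y * val s (a, δ)) := by group
  · have hcn : c = !ε := by cases c <;> cases ε <;> simp_all
    subst hcn
    apply not_NF_of (p := (b, !ε)) (v := List.replicate (k + 1) (a, δ) ++ (b, ε) :: y)
    · simp only; omega
    · simp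
    · have hcm := comm_ev hc (!ε) hy
      have h := conj_powv hb hab ε δ (k + 1)
      simp only [ev_cons, ev_append, ev_replicate, ev_nil, mul_one]
      rw [val_not b ε]
      calc (val s (b, ε))⁻¹ * (val s (a, δ) ^ (k + 1) * (val s (b, ε) * ev s y))
          = ((val s (b, ε))⁻¹ * val s (a, δ) ^ (k + 1) * val s (b, ε)) * ev s y := by group
        _ = val s (a, ε) * val s (b, δ) ^ (k + 1) * (val s (a, !ε) * ev s y) := by
            rw [← h, val_not a ε]; group
        _ = val s (a, ε) * val s (b, δ) ^ (k + 1) * (ev s y * val s (a, !ε)) := by rw [hcm.eq]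
        _ = val s (a, ε) * (val s (b, δ) ^ (k + 1) * ev s y * val s (a, !ε)) := by group

/-- cancellation is not geodesic -/
theorem forb_cancel {z : List (Letter N)} {a : Fin N} {ε : Bool} :
    ¬ NF s (z ++ [(a, ε), (a, !ε)]) := by
  intro h
  have := h.geo z (by simp [val_not])
  simp at this

include hc in
theorem forb_comm {z : List (Letter N)} {p q : Letter N} (h : (p.1 : ℕ) + 2 ≤ q.1) :
    ¬ NF s (z ++ [q, p]) := by
  apply not_NF_of (p := p) (v := [q])
  · omega
  · simp
  · simp only [ev_cons, ev_nil, mul_one]
    have := comm_val hc (s := s) (p := p) (a := q.1) q.2 h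
    exact this.eq

end relations


/-! ### The configuration attached to a normal word -/

/-- repeat the last letter -/
def stay (δ : Bool) : List (Finset Bool) → List (Finset Bool)
  | [] => []
  | h :: T => (if h = ∅ then {δ} else h) :: T

/-- the pending data after landing at some level -/
def land : List (Finset Bool) → List (Finset Bool)
  | [] => []
  | _ :: T => Finset.univ :: T

/-- one step of the machine -/
def step (i : ℕ) (δ : Bool) (L : List (Finset Bool)) (i' : ℕ) (δ' : Bool) :
    List (Finset Bool) :=
  if i' = i then stay δ L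
  else if i' + 1 = i then (if δ' = δ then ∅ else {δ}) :: L
  else land (L.drop (i' - i))

/-- the configuration of a (reversed) word -/
def cfg : List (Letter N) → List (Finset Bool)
  | [] => []
  | [p] => List.replicate (N - 1 - p.1) Finset.univ
  | q :: p :: r => step p.1 p.2 (cfg (p :: r)) q.1 q.2

/-- a pending constraint at level `l` -/
def Pend (l : ℕ) (h : Finset Bool) (r : List (Letter N)) : Prop :=
  ∃ (y z : List (Letter N)) (a b : Fin N) (ε δ : Bool) (k : ℕ),
    r = y ++ (List.replicate (k + 1) (b, δ) ++ (a, ε) :: z) ∧ (a : ℕ) = l ∧ (b : ℕ) + 1 = l ∧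
      (∀ p ∈ y, (p.1 : ℕ) + 2 ≤ l) ∧ ∀ c, c ∉ h → (c ≠ ε ∨ (k = 0 ∧ δ = ε))

/-- the shape of the first pending constraint -/
def HeadInv (h : Finset Bool) (r : List (Letter N)) : Prop :=
  h = Finset.univ ∨ ∃ (z : List (Letter N)) (a b : Fin N) (ε δ : Bool) (k : ℕ),
    r = List.replicate (k + 1) (b, δ) ++ (a, ε) :: z ∧ (b : ℕ) + 1 = a ∧
      h = if k = 0 ∧ δ = ε then ∅ else {ε}

/-- the invariant of the machine -/
structure Inv (r : List (Letter N)) (i : ℕ) (L : List (Finset Bool)) : Prop where
  len : L.length + i + 1 = N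
  head : ∀ h ∈ L.head?, HeadInv h r
  pend : ∀ j (hj : j < L.length), L[j] = Finset.univ ∨ Pend (i + 1 + j) L[j] r

theorem Pend.cons {l : ℕ} {h : Finset Bool} {r : List (Letter N)} (hp : Pend l h r)
    {q : Letter N} (hq : (q.1 : ℕ) + 2 ≤ l) : Pend l h (q :: r) := by
  obtain ⟨y, z, a, b, ε, δ, k, hr, ha, hb, hy, hc⟩ := hp
  refine ⟨q :: y, z, a, b, ε, δ, k, by simp [hr], ha, hb, ?_, hc⟩
  intro p hp
  rcases List.mem_cons.mp hp with rfl | hp
  · exact hq
  · exact hy p hp

theorem HeadInv.pend {h : Finset Bool} {p : Letter N} {r : List (Letter N)}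
    (hh : HeadInv h (p :: r)) : h = Finset.univ ∨ Pend (p.1 + 1) h (p :: r) := by
  rcases hh with h1 | ⟨z, a, b, ε, δ, k, hr, hab, hh⟩
  · exact Or.inl h1
  · right
    have hp : p = (b, δ) := by
      have := congrArg List.head? hr
      simpa [List.replicate_succ] using this
    refine ⟨[], z, a, b, ε, δ, k, by simpa using hr, ?_, ?_, by simp, ?_⟩
    · rw [hp]; simp only; omega
    · rw [hp]
    · intro c hc
      by_cases hk : k = 0 ∧ δ = ε
      · exact Or.inr hk
      · left
        rw [hh, if_neg hk] at hc
        simpa using hc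

theorem inv_single (p : Letter N) : Inv [p] p.1 (cfg [p]) := by
  have hp := p.1.2
  refine ⟨?_, ?_, ?_⟩
  · simp only [cfg, List.length_replicate]; omega
  · intro h hh
    left
    simp only [cfg] at hh
    have := List.mem_of_mem_head? hh
    exact (List.mem_replicate.mp this).2
  · intro j hj
    left
    simp [cfg]

theorem inv_stay {p : Letter N} {r : List (Letter N)} {L : List (Finset Bool)}
    (h : Inv (p :: r) p.1 L) : Inv (p :: p :: r) p.1 (stay p.2 L) := by
  cases L with
  | nil =>
    refine ⟨by simpa [stay] using h.len, by simp [stay], by simp [stay]⟩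
  | cons g T =>
    have hlen := h.len
    have hhead := h.head g (by simp)
    have hH : HeadInv (if g = ∅ then {p.2} else g) (p :: p :: r) := by
      rcases hhead with h1 | ⟨z, a, b, ε, δ, k, hr, hab, hh⟩
      · left
        rw [h1, if_neg]
        decide
      · right
        have hp : p = (b, δ) := by
          have := congrArg List.head? hr
          simpa [List.replicate_succ] using this
        refine ⟨z, a, b, ε, δ, k + 1, ?_, hab, ?_⟩
        · rw [hr, hp]
          simp [List.replicate_succ]
        · rw [if_neg (by simp : ¬ (k + 1 = 0 ∧ δ = ε))]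
          by_cases hk : k = 0 ∧ δ = ε
          · rw [if_pos hk] at hh
            rw [if_pos hh, hp, hk.2]
          · rw [if_neg hk] at hh
            rw [if_neg (by rw [hh]; simp), hh]
    refine ⟨by simpa [stay] using hlen, ?_, ?_⟩
    · intro h' hh'
      simp only [stay, List.head?_cons, Option.mem_def, Option.some.injEq] at hh'
      rw [← hh']
      exact hH
    · intro j hj
      cases j with
      | zero =>
        simp only [stay, List.getElem_cons_zero, add_zero]
        exact hH.pend
      | succ j =>
        simp only [stay, List.getElem_cons_succ, List.length_cons] at hj ⊢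
        have hj' : j + 1 < (g :: T).length := by simpa using hj
        rcases h.pend (j + 1) hj' with h1 | h1
        · left; simpa using h1
        · right
          have h2 := h1.cons (q := p) (by omega)
          simpa using h2

theorem inv_down {p q : Letter N} {r : List (Letter N)} {L : List (Finset Bool)}
    (h : Inv (p :: r) p.1 L) (hq : (q.1 : ℕ) + 1 = p.1) :
    Inv (q :: p :: r) q.1 ((if q.2 = p.2 then ∅ else {p.2}) :: L) := by
  have hlen := h.len
  have hH : HeadInv (if q.2 = p.2 then ∅ else {p.2}) (q :: p :: r) := by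
    right
    exact ⟨r, p.1, q.1, p.2, q.2, 0, by simp, hq, by simp⟩
  refine ⟨by simp only [List.length_cons]; omega, ?_, ?_⟩
  · intro h' hh'
    simp only [List.head?_cons, Option.mem_def, Option.some.injEq] at hh'
    rw [← hh']
    exact hH
  · intro j hj
    cases j with
    | zero =>
      simp only [List.getElem_cons_zero, add_zero]
      exact hH.pend
    | succ j =>
      simp only [List.getElem_cons_succ, List.length_cons] at hj ⊢
      have hj' : j < L.length := by omega
      rcases h.pend j hj' with h1 | h1
      · left; exact h1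
      · right
        have h2 := h1.cons (q := q) (by omega)
        have h3 : (q.1 : ℕ) + 1 + (j + 1) = p.1 + 1 + j := by omega
        rw [h3]
        exact h2

theorem inv_up {p q : Letter N} {r : List (Letter N)} {L : List (Finset Bool)}
    (h : Inv (p :: r) p.1 L) (hq : (p.1 : ℕ) < q.1) :
    Inv (q :: p :: r) q.1 (land (L.drop (q.1 - p.1))) := by
  have hlen := h.len
  have hqN := q.1.2
  rcases hd : L.drop (q.1 - p.1) with _ | ⟨g, T⟩
  · have h0 : (L.drop ((q.1 : ℕ) - p.1)).length = 0 := by rw [hd]; rfl
    rw [List.length_drop] at h0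
    refine ⟨by simp only [land, List.length_nil]; omega, by simp [land], by simp [land]⟩
  · have h0 : (L.drop ((q.1 : ℕ) - p.1)).length = T.length + 1 := by rw [hd]; rfl
    rw [List.length_drop] at h0
    refine ⟨by simp only [land, List.length_cons]; omega, ?_, ?_⟩
    · intro h' hh'
      left
      simp only [land, List.head?_cons, Option.mem_def, Option.some.injEq] at hh'
      exact hh'.symm
    · intro j hj
      cases j with
      | zero => left; simp [land]
      | succ j =>
        simp only [land, List.getElem_cons_succ, List.length_cons] at hj ⊢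
        have hj' : ((q.1 : ℕ) - p.1) + (j + 1) < L.length := by omega
        have hT : T[j] = L[((q.1 : ℕ) - p.1) + (j + 1)] := by
          have h5 : (L.drop ((q.1 : ℕ) - p.1))[j + 1]'(by rw [List.length_drop]; omega) =
              L[((q.1 : ℕ) - p.1) + (j + 1)] := by
            rw [List.getElem_drop]
          rw [← h5]
          simp only [hd, List.getElem_cons_succ]
        rw [hT]
        rcases h.pend _ hj' with h1 | h1
        · left; exact h1
        · right
          have h2 := h1.cons (q := q) (by omega)
          have h3 : (q.1 : ℕ) + 1 + (j + 1) = p.1 + 1 + ((q.1 - p.1) + (j + 1)) := by omega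
          rw [h3]
          exact h2

section allowed

variable (hc : ∀ i j : Fin N, (i : ℕ) + 2 ≤ j → s i * s j = s j * s i)
variable (hb : ∀ i j : Fin N, (i : ℕ) + 1 = j → s i * s j * s i = s j * s i * s j)

/-- the letters allowed by the machine -/
def Allowed (i : ℕ) (δ : Bool) (L : List (Finset Bool)) (i' : ℕ) (δ' : Bool) : Prop :=
  (i' = i ∧ δ' = δ) ∨ i' + 1 = i ∨ (i < i' ∧ ∃ h ∈ L[i' - i - 1]?, δ' ∈ h)

include hc hb in
theorem allowed_of_NF {p q : Letter N} {r : List (Letter N)} {L : List (Finset Bool)}
    (h : Inv (p :: r) p.1 L) (hnf : NF s (q :: p :: r).reverse) :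
    Allowed p.1 p.2 L q.1 q.2 := by
  have hlen := h.len
  have hqN := q.1.2
  rcases lt_trichotomy (q.1 : ℕ) p.1 with hlt | heq | hgt
  · by_cases h1 : (q.1 : ℕ) + 1 = p.1
    · exact Or.inr (Or.inl h1)
    · exfalso
      have h2 : (q.1 : ℕ) + 2 ≤ p.1 := by omega
      apply forb_comm hc (z := r.reverse) h2
      simpa using hnf
  · left
    refine ⟨heq, ?_⟩
    by_contra hne
    have hqp : q = (p.1, !p.2) := by
      have h1 : q.1 = p.1 := Fin.ext heq
      have h2 : q.2 = !p.2 := by
        cases hq2 : q.2 <;> cases hp2 : p.2 <;> simp_all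
      exact Prod.ext h1 h2
    rw [hqp] at hnf
    apply forb_cancel (s := s) (z := r.reverse) (a := p.1) (ε := p.2)
    simpa using hnf
  · right; right
    refine ⟨hgt, ?_⟩
    have hj : (q.1 : ℕ) - p.1 - 1 < L.length := by omega
    refine ⟨L[(q.1 : ℕ) - p.1 - 1], by simp [hj], ?_⟩
    by_contra hmem
    rcases h.pend _ hj with h1 | h1
    · rw [h1] at hmem
      simp at hmem
    · obtain ⟨y, z, a, b, ε, δ, k, hr, ha, hb', hy, hcc⟩ := h1
      have hl : (p.1 : ℕ) + 1 + (q.1 - p.1 - 1) = q.1 := by omega
      rw [hl] at ha hb' hy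
      have haq : a = q.1 := Fin.ext ha
      have hq : q = (a, q.2) := by rw [haq]
      have hrev : (q :: p :: r).reverse = z.reverse ++ (a, ε) ::
          (List.replicate (k + 1) (b, δ) ++ y.reverse ++ [(a, q.2)]) := by
        rw [hr, ← hq]
        simp [List.reverse_append]
      rw [hrev] at hnf
      exact forb hc hb (s := s) (z := z.reverse) (y := y.reverse) (a := a) (b := b) (ε := ε)
        (δ := δ) (c := q.2) (k := k) (by omega) (by
          intro p' hp'
          rw [ha]
          exact hy p' (List.mem_reverse.mp hp')) (hcc _ hmem) hnf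

theorem inv_step {p q : Letter N} {r : List (Letter N)} {L : List (Finset Bool)}
    (h : Inv (p :: r) p.1 L) (hal : Allowed p.1 p.2 L q.1 q.2) :
    Inv (q :: p :: r) q.1 (step p.1 p.2 L q.1 q.2) := by
  rcases hal with ⟨h1, h2⟩ | h1 | ⟨h1, h2⟩
  · have hqp : q = p := Prod.ext (Fin.ext h1) h2
    subst hqp
    simpa [step] using inv_stay h
  · have h3 : ¬ ((q.1 : ℕ) = p.1) := by omega
    simp only [step, if_neg h3, if_pos h1]
    exact inv_down h h1
  · have h3 : ¬ ((q.1 : ℕ) = p.1) := by omega
    have h4 : ¬ ((q.1 : ℕ) + 1 = p.1) := by omega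
    simp only [step, if_neg h3, if_neg h4]
    exact inv_up h h1

include hc hb in
theorem inv_cfg (r : List (Letter N)) (p : Letter N) (hnf : NF s (p :: r).reverse) :
    Inv (p :: r) p.1 (cfg (p :: r)) := by
  induction r generalizing p with
  | nil => exact inv_single p
  | cons p' r ih =>
    have h1 : NF s (p' :: r).reverse := by
      rw [List.reverse_cons] at hnf
      exact hnf.of_append
    have h2 := ih p' h1
    exact inv_step h2 (allowed_of_NF hc hb h2 hnf)

end allowed

/-! ### Weights -/

/-- weights of the first pending constraint -/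
noncomputable def Rc : ℕ → ℝ
  | 0 => 0.35017
  | 1 => 0.73046
  | _ => 1.19064

/-- the pair of values `(U, Θ)` of a stack -/
noncomputable def UT : List (Finset Bool) → ℝ × ℝ
  | [] => (1, 0)
  | h :: T => (1 + 1.19064 * (UT T).1 + 0.59532 * (UT T).2, h.card * (UT T).1 + (UT T).2)

/-- the weight of a configuration -/
noncomputable def W : List (Finset Bool) → ℝ
  | [] => 1
  | h :: T => 1 + Rc h.card * (UT T).1 + 0.59532 * (UT T).2

theorem UT_nonneg (L : List (Finset Bool)) : 0 ≤ (UT L).1 ∧ 0 ≤ (UT L).2 := by
  induction L with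
  | nil => simp [UT]
  | cons h T ih =>
    obtain ⟨h1, h2⟩ := ih
    constructor
    · simp only [UT]; positivity
    · simp only [UT]; positivity

theorem Rc_nonneg (c : ℕ) : 0 ≤ Rc c := by
  rcases c with _ | _ | c <;> simp only [Rc] <;> norm_num

theorem one_le_W (L : List (Finset Bool)) : 1 ≤ W L := by
  cases L with
  | nil => simp [W]
  | cons h T =>
    obtain ⟨h1, h2⟩ := UT_nonneg T
    have := Rc_nonneg h.card
    simp only [W]
    have h3 : 0 ≤ Rc h.card * (UT T).1 := mul_nonneg this h1
    have h4 : 0 ≤ (0.59532 : ℝ) * (UT T).2 := by positivity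
    linarith

theorem W_land (L : List (Finset Bool)) : W (land L) = (UT L).1 := by
  cases L with
  | nil => simp [W, land, UT]
  | cons h T =>
    simp only [land, W, UT]
    have : (Finset.univ : Finset Bool).card = 2 := by decide
    rw [this]
    simp only [Rc]

/-- the one-step inequality -/
theorem total_le (δ : Bool) (L : List (Finset Bool)) :
    W (stay δ L) + (W (∅ :: L) + W ({δ} :: L)) + (UT L).2 ≤ 5.7604 * W L := by
  cases L with
  | nil =>
    simp only [stay, W, UT, Rc, Finset.card_empty, Finset.card_singleton]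
    norm_num
  | cons h T =>
    obtain ⟨h1, h2⟩ := UT_nonneg T
    set u := (UT T).1 with hu
    set v := (UT T).2 with hv
    have hcard : h.card ≤ 2 := by
      have := Finset.card_le_univ h
      simpa using this
    have hcases : h.card = 0 ∨ h.card = 1 ∨ h.card = 2 := by omega
    rcases hcases with h0 | h0 | h0
    · have he : h = ∅ := Finset.card_eq_zero.mp h0
      subst he
      simp only [stay, W, UT, Rc, Finset.card_empty, Finset.card_singleton, if_true, ← hu, ← hv]
      norm_num
      linarith
    · have he : h ≠ ∅ := by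
        intro hh; rw [hh] at h0; simp at h0
      simp only [stay, W, UT, Rc, Finset.card_empty, Finset.card_singleton, if_neg he, h0,
        ← hu, ← hv]
      norm_num
      linarith
    · have he : h ≠ ∅ := by
        intro hh; rw [hh] at h0; simp at h0
      simp only [stay, W, UT, Rc, Finset.card_empty, Finset.card_singleton, if_neg he, h0,
        ← hu, ← hv]
      norm_num
      linarith

theorem sum_land (L : List (Finset Bool)) :
    ∑ j ∈ Finset.range L.length, ((L[j]?.getD ∅).card : ℝ) * W (land (L.drop (j + 1))) =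
      (UT L).2 := by
  induction L with
  | nil => simp [UT]
  | cons h T ih =>
    rw [List.length_cons, Finset.sum_range_succ']
    simp only [List.getElem?_cons_succ, List.drop_succ_cons, List.getElem?_cons_zero,
      Option.getD_some, List.drop_zero, UT, W_land]
    simp only [W_land] at ih
    rw [ih]
    ring

open Classical in
/-- contribution of one letter -/
noncomputable def contrib (i : ℕ) (δ : Bool) (L : List (Finset Bool)) (a : ℕ) (c : Bool) : ℝ :=
  if Allowed i δ L a c then W (step i δ L a c) else 0

theorem contrib_self (i : ℕ) (δ : Bool) (L : List (Finset Bool)) :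
    ∑ c : Bool, contrib i δ L i c = W (stay δ L) := by
  rw [Finset.sum_eq_single δ]
  · have h0 : Allowed i δ L i δ := Or.inl ⟨rfl, rfl⟩
    rw [contrib, if_pos h0]
    simp [step]
  · intro c _ hc
    rw [contrib, if_neg]
    rintro (⟨_, h⟩ | h | ⟨h, _⟩)
    · exact hc h
    · omega
    · omega
  · simp

theorem contrib_down (i : ℕ) (δ : Bool) (L : List (Finset Bool)) :
    ∑ c : Bool, contrib (i + 1) δ L i c = W (∅ :: L) + W ({δ} :: L) := by
  have h : ∀ c, contrib (i + 1) δ L i c = W ((if c = δ then ∅ else {δ}) :: L) := by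
    intro c
    have h0 : Allowed (i + 1) δ L i c := Or.inr (Or.inl rfl)
    rw [contrib, if_pos h0]
    simp [step]
  simp only [h]
  rw [Fintype.sum_bool]
  cases δ <;> simp [add_comm]

theorem contrib_low (i a : ℕ) (h : a + 2 ≤ i) (δ : Bool) (L : List (Finset Bool)) :
    ∑ c : Bool, contrib i δ L a c = 0 := by
  apply Finset.sum_eq_zero
  intro c _
  rw [contrib, if_neg]
  rintro (⟨h1, _⟩ | h1 | ⟨h1, _⟩) <;> omega

theorem contrib_up (i j : ℕ) (δ : Bool) (L : List (Finset Bool)) (hj : j < L.length) :
    ∑ c : Bool, contrib i δ L (i + 1 + j) c =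
      ((L[j]?.getD ∅).card : ℝ) * W (land (L.drop (j + 1))) := by
  have h : ∀ c, contrib i δ L (i + 1 + j) c =
      if c ∈ L[j] then W (land (L.drop (j + 1))) else 0 := by
    intro c
    have h1 : i + 1 + j - i - 1 = j := by omega
    have h2 : i + 1 + j - i = j + 1 := by omega
    have h3 : Allowed i δ L (i + 1 + j) c ↔ c ∈ L[j] := by
      constructor
      · rintro (⟨h4, _⟩ | h4 | ⟨_, g, hg, hcg⟩)
        · omega
        · omega
        · rw [h1] at hg
          rw [List.getElem?_eq_getElem hj] at hg
          simp only [Option.mem_def, Option.some.injEq] at hg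
          rw [hg]; exact hcg
      · intro h4
        refine Or.inr (Or.inr ⟨by omega, L[j], ?_, h4⟩)
        rw [h1, List.getElem?_eq_getElem hj]
        rfl
    rw [contrib]
    by_cases hcm : c ∈ L[j]
    · rw [if_pos (h3.mpr hcm), if_pos hcm]
      simp only [step]
      rw [if_neg (by omega), if_neg (by omega), h2]
    · rw [if_neg (fun h4 => hcm (h3.mp h4)), if_neg hcm]
  simp only [h]
  rw [List.getElem?_eq_getElem hj, Option.getD_some]
  rw [Finset.sum_ite_mem, Finset.univ_inter]
  simp

theorem sum_contrib_le (i : ℕ) (δ : Bool) (L : List (Finset Bool)) (hL : L.length + i + 1 = N) :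
    ∑ q : Letter N, contrib i δ L q.1 q.2 ≤ 5.7604 * W L := by
  rw [Fintype.sum_prod_type]
  rw [← Finset.sum_range (fun a => ∑ c : Bool, contrib i δ L a c)]
  have hN : N = (i + 1) + L.length := by omega
  rw [hN, Finset.sum_range_add, Finset.sum_range_succ, contrib_self]
  have h1 : ∑ a ∈ Finset.range i, ∑ c : Bool, contrib i δ L a c ≤ W (∅ :: L) + W ({δ} :: L) := by
    cases i with
    | zero =>
      simp only [Finset.range_zero, Finset.sum_empty]
      have := one_le_W (∅ :: L)
      have := one_le_W ({δ} :: L)
      linarith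
    | succ i =>
      rw [Finset.sum_range_succ, contrib_down]
      have : ∑ a ∈ Finset.range i, ∑ c : Bool, contrib (i + 1) δ L a c = 0 := by
        apply Finset.sum_eq_zero
        intro a ha
        apply contrib_low
        have := Finset.mem_range.mp ha
        omega
      rw [this, zero_add]
  have h2 : ∑ j ∈ Finset.range L.length, ∑ c : Bool, contrib i δ L (i + 1 + j) c = (UT L).2 := by
    rw [← sum_land L]
    apply Finset.sum_congr rfl
    intro j hj
    exact contrib_up i j δ L (Finset.mem_range.mp hj)
  rw [h2]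
  have := total_le δ L
  linarith

/-! ### Counting -/

section counting

open Classical in
/-- reversed normal words of length `m` -/
noncomputable def NFset (s : Fin N → G) (m : ℕ) : Finset (List (Letter N)) :=
  (List.finite_length_eq (Letter N) m).toFinset.filter (fun r => NF s r.reverse)

theorem mem_NFset {s : Fin N → G} {m : ℕ} {r : List (Letter N)} :
    r ∈ NFset s m ↔ r.length = m ∧ NF s r.reverse := by
  simp [NFset]

variable (hc : ∀ i j : Fin N, (i : ℕ) + 2 ≤ j → s i * s j = s j * s i)
variable (hb : ∀ i j : Fin N, (i : ℕ) + 1 = j → s i * s j * s i = s j * s i * s j)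

include hc hb in
theorem sum_succ (m : ℕ) :
    ∑ r ∈ NFset s (m + 2), W (cfg r) ≤ 5.7604 * ∑ r ∈ NFset s (m + 1), W (cfg r) := by
  classical
  have hsub : NFset s (m + 2) ⊆
      ((NFset s (m + 1) ×ˢ (Finset.univ : Finset (Letter N))).filter
        (fun x => (x.2 :: x.1) ∈ NFset s (m + 2))).image (fun x => x.2 :: x.1) := by
    intro r hr
    obtain ⟨hl, hn⟩ := mem_NFset.mp hr
    cases r with
    | nil => simp at hl
    | cons q r =>
      rw [Finset.mem_image]
      refine ⟨(r, q), ?_, rfl⟩
      rw [Finset.mem_filter, Finset.mem_product]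
      refine ⟨⟨mem_NFset.mpr ⟨by simpa using hl, ?_⟩, Finset.mem_univ _⟩, hr⟩
      rw [List.reverse_cons] at hn
      exact hn.of_append
  have hinj : Set.InjOn (fun x : List (Letter N) × Letter N => x.2 :: x.1)
      (((NFset s (m + 1) ×ˢ (Finset.univ : Finset (Letter N))).filter
        (fun x => (x.2 :: x.1) ∈ NFset s (m + 2))) : Finset _) := by
    rintro ⟨a, b⟩ _ ⟨a', b'⟩ _ h
    simp only [List.cons.injEq] at h
    exact Prod.ext h.2 h.1
  calc ∑ r ∈ NFset s (m + 2), W (cfg r)
      ≤ ∑ r ∈ ((NFset s (m + 1) ×ˢ (Finset.univ : Finset (Letter N))).filter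
        (fun x => (x.2 :: x.1) ∈ NFset s (m + 2))).image (fun x => x.2 :: x.1), W (cfg r) := by
        apply Finset.sum_le_sum_of_subset_of_nonneg hsub
        intro r _ _
        have := one_le_W (cfg r)
        linarith
    _ = ∑ x ∈ (NFset s (m + 1) ×ˢ (Finset.univ : Finset (Letter N))).filter
        (fun x => (x.2 :: x.1) ∈ NFset s (m + 2)), W (cfg (x.2 :: x.1)) := by
        rw [Finset.sum_image hinj]
    _ = ∑ x ∈ NFset s (m + 1) ×ˢ (Finset.univ : Finset (Letter N)),
        if (x.2 :: x.1) ∈ NFset s (m + 2) then W (cfg (x.2 :: x.1)) else 0 := by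
        rw [Finset.sum_filter]
    _ = ∑ r ∈ NFset s (m + 1), ∑ q : Letter N,
        if (q :: r) ∈ NFset s (m + 2) then W (cfg (q :: r)) else 0 := by
        rw [Finset.sum_product]
    _ ≤ ∑ r ∈ NFset s (m + 1), 5.7604 * W (cfg r) := by
        apply Finset.sum_le_sum
        intro r hr
        obtain ⟨hl, hn⟩ := mem_NFset.mp hr
        cases r with
        | nil => simp at hl
        | cons p r =>
          have hinv := inv_cfg hc hb r p hn
          refine le_trans ?_ (sum_contrib_le (N := N) p.1 p.2 (cfg (p :: r)) hinv.len)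
          apply Finset.sum_le_sum
          intro q _
          by_cases hq : (q :: p :: r) ∈ NFset s (m + 2)
          · rw [if_pos hq, contrib,
              if_pos (allowed_of_NF hc hb hinv (mem_NFset.mp hq).2)]
            exact le_of_eq rfl
          · rw [if_neg hq, contrib]
            split_ifs
            · have := one_le_W (step (↑p.1) p.2 (cfg (p :: r)) (↑q.1) q.2)
              linarith
            · exact le_refl _
    _ = 5.7604 * ∑ r ∈ NFset s (m + 1), W (cfg r) := by rw [Finset.mul_sum]

include hc hb in
theorem card_NFset_le : ∃ C : ℝ, 0 ≤ C ∧ ∀ m, ((NFset s m).card : ℝ) ≤ C * 5.7604 ^ m := by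
  set D : ℝ := ∑ r ∈ NFset s 1, W (cfg r) with hD
  have hDn : 0 ≤ D := Finset.sum_nonneg fun r _ => by
    have := one_le_W (cfg r); linarith
  have hs : ∀ m, ∑ r ∈ NFset s (m + 1), W (cfg r) ≤ D * 5.7604 ^ m := by
    intro m
    induction m with
    | zero => simp [hD]
    | succ m ih =>
      refine (sum_succ hc hb m).trans ?_
      rw [pow_succ]
      nlinarith [ih]
  have hcard : ∀ m, ((NFset s m).card : ℝ) ≤ ∑ r ∈ NFset s m, W (cfg r) := by
    intro m
    rw [Finset.card_eq_sum_ones, Nat.cast_sum]
    apply Finset.sum_le_sum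
    intro r _
    simpa using one_le_W (cfg r)
  refine ⟨D + 1, by linarith, ?_⟩
  intro m
  cases m with
  | zero =>
    have h1 : (NFset s 0).card ≤ 1 := by
      rw [Finset.card_le_one]
      intro a ha b hb'
      have h2 := (mem_NFset.mp ha).1
      have h3 := (mem_NFset.mp hb').1
      rw [List.length_eq_zero_iff] at h2 h3
      rw [h2, h3]
    have h2 : ((NFset s 0).card : ℝ) ≤ 1 := by exact_mod_cast h1
    simp only [pow_zero, mul_one]
    linarith
  | succ m =>
    have h1 := (hcard (m + 1)).trans (hs m)
    have h2 : (5.7604 : ℝ) ^ m ≤ 5.7604 ^ (m + 1) := by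
      apply pow_le_pow_right₀ <;> norm_num
    have h3 : (0 : ℝ) ≤ 5.7604 ^ (m + 1) := by positivity
    nlinarith

end counting

end Pool.Agent.H70.Braid.Upper
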