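import Mathlib
import Pool.Agent.Lib.H70.BraidDefs
import Pool.Agent.Lib.H70.BraidUpper

/-!
The growth rate of every braid group is at most `5.7604`.
-/

namespace Pool.Agent.H70.Braid

open Filter Topology

theorem growth_le_of_bound {n : ℕ} {ω lam C : ℝ} (hlam : 0 < lam) (hC : 0 < C)
    (hω : IsGrowthRate n ω) (hb : ∀ k, (ballCard n k : ℝ) ≤ C * lam ^ k) : ω ≤ lam := by
  have h1 : Tendsto (fun k : ℕ => C ^ (1 / (k : ℝ)) * lam) atTop (𝓝 (C ^ (0 : ℝ) * lam)) := by
    apply Tendsto.mul_const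
    exact tendsto_const_nhds.rpow tendsto_one_div_atTop_nhds_zero_nat (Or.inl hC.ne')
  rw [Real.rpow_zero, one_mul] at h1
  refine le_of_tendsto_of_tendsto hω h1 ?_
  filter_upwards [eventually_ge_atTop 1] with k hk
  have hk0 : (k : ℝ) ≠ 0 := by
    have : (0 : ℝ) < k := by exact_mod_cast hk
    exact this.ne'
  calc (ballCard n k : ℝ) ^ (1 / (k : ℝ)) ≤ (C * lam ^ k) ^ (1 / (k : ℝ)) := by
        apply Real.rpow_le_rpow (Nat.cast_nonneg _) (hb k)
        positivity
    _ = C ^ (1 / (k : ℝ)) * (lam ^ k) ^ (1 / (k : ℝ)) := by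
        rw [Real.mul_rpow hC.le (by positivity)]
    _ = C ^ (1 / (k : ℝ)) * lam := by
        congr 1
        rw [← Real.rpow_natCast, ← Real.rpow_mul hlam.le, mul_one_div_cancel hk0, Real.rpow_one]

theorem ball_bound (n : ℕ) : ∃ C : ℝ, 0 < C ∧ ∀ k, (ballCard n k : ℝ) ≤ C * 5.7604 ^ k := by
  classical
  obtain ⟨C, hC, hm⟩ := Upper.card_NFset_le (s := sigma n)
    (fun i j h => sigma_comm n i j h) (fun i j h => sigma_braid n i j h)
  refine ⟨2 * C + 1, by linarith, ?_⟩
  intro k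
  have hsub : ballSet n k ⊆
      ((Finset.range (k + 1)).biUnion (fun m => (Upper.NFset (sigma n) m).image
        (fun r => wordEval n r.reverse)) : Finset (BraidGroup n)) := by
    rintro g ⟨w, hw, rfl⟩
    obtain ⟨w', hnf, hev, hl⟩ := Upper.exists_NF (s := sigma n) w
    rw [Finset.coe_biUnion]
    simp only [Set.mem_iUnion, Finset.coe_range, Set.mem_Iio, Finset.coe_image, Set.mem_image,
      Finset.mem_coe]
    refine ⟨w'.length, by omega, w'.reverse, Upper.mem_NFset.mpr ⟨by simp, by simpa using hnf⟩, ?_⟩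
    rw [List.reverse_reverse]
    exact hev
  have h1 : ballCard n k ≤ ∑ m ∈ Finset.range (k + 1), (Upper.NFset (sigma n) m).card := by
    rw [ballCard_eq]
    refine (Set.ncard_le_ncard hsub (Finset.finite_toSet _)).trans ?_
    rw [Set.ncard_coe_finset]
    refine Finset.card_biUnion_le.trans ?_
    exact Finset.sum_le_sum fun m _ => Finset.card_image_le
  have h2 : (ballCard n k : ℝ) ≤ ∑ m ∈ Finset.range (k + 1), C * 5.7604 ^ m := by
    calc (ballCard n k : ℝ) ≤ ((∑ m ∈ Finset.range (k + 1), (Upper.NFset (sigma n) m).card : ℕ) : ℝ) := by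
          exact_mod_cast h1
      _ = ∑ m ∈ Finset.range (k + 1), ((Upper.NFset (sigma n) m).card : ℝ) := by push_cast; rfl
      _ ≤ _ := Finset.sum_le_sum fun m _ => hm m
  rw [← Finset.mul_sum, geom_sum_eq (by norm_num)] at h2
  have h3 : (0 : ℝ) < 5.7604 ^ k := by positivity
  have h4 : ((5.7604 : ℝ) ^ (k + 1) - 1) / (5.7604 - 1) ≤ 2 * 5.7604 ^ k := by
    rw [div_le_iff₀ (by norm_num), pow_succ]
    nlinarith
  calc (ballCard n k : ℝ) ≤ C * (((5.7604 : ℝ) ^ (k + 1) - 1) / (5.7604 - 1)) := h2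
    _ ≤ C * (2 * 5.7604 ^ k) := by
        apply mul_le_mul_of_nonneg_left h4 hC
    _ ≤ (2 * C + 1) * 5.7604 ^ k := by nlinarith

theorem growth_le {n : ℕ} {ω : ℝ} (hω : IsGrowthRate n ω) : ω ≤ 5.7604 := by
  obtain ⟨C, hC, hb⟩ := ball_bound n
  exact growth_le_of_bound (by norm_num) hC hω hb

end Pool.Agent.H70.Braid
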